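import Pool.Agent.Helper93.TLE.StB

/-!
# Module Avg of project TLE: sums over translations and levels, with signs
-/

set_option autoImplicit false

namespace Pool.Agent.Helper42.TLE

open Pool.Agent.Helper14.CV (Homog EqC act Tl StFar StFex act_act)
open Pool.Agent.Helper28.WK (Tw evw)
open Pool.Agent.Helper4.TL Pool.Agent.Helper93.TLE

private lemma act_sum {ι : Type} (s : Finset ι) (F : ι → ℤ → ℤ → ℂ) (a b c d : ℤ) :
    act a b c d (∑ i ∈ s, F i) = ∑ i ∈ s, act a b c d (F i) := by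
  funext x y
  simp [act, Finset.sum_apply]

private lemma eqc_sum {ι : Type} (s : Finset ι) (F H : ι → ℤ → ℤ → ℂ)
    (h : ∀ i ∈ s, EqC (F i) (H i)) : EqC (∑ i ∈ s, F i) (∑ i ∈ s, H i) := by
  classical
  induction s using Finset.induction_on with
  | empty => simp only [Finset.sum_empty]; exact EqC.refl _
  | insert a s ha ih =>
    rw [Finset.sum_insert ha, Finset.sum_insert ha]
    exact (h a (Finset.mem_insert_self _ _)).add
      (ih (fun i hi => h i (Finset.mem_insert_of_mem hi)))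

private lemma homog_sum {ι : Type} (s : Finset ι) (F : ι → ℤ → ℤ → ℂ)
    (h : ∀ i ∈ s, Homog (F i)) : Homog (∑ i ∈ s, F i) := by
  classical
  induction s using Finset.induction_on with
  | empty =>
    intro k x y _ _
    simp
  | insert a s ha ih =>
    rw [Finset.sum_insert ha]
    exact (h a (Finset.mem_insert_self _ _)).add
      (ih (fun i hi => h i (Finset.mem_insert_of_mem hi)))

/-- The residue of `x` modulo `p`. -/
private def rs (p : ℕ) (x : ℤ) : ℕ := (x % (p : ℤ)).toNat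

private lemma rs_spec (p : ℕ) (hp : p.Prime) (x : ℤ) : ∃ t : ℤ, x = (rs p x : ℤ) + p * t := by
  have hp0 : (p : ℤ) ≠ 0 := by exact_mod_cast hp.ne_zero
  refine ⟨x / p, ?_⟩
  have e1 : ((rs p x : ℕ) : ℤ) = x % p := Int.toNat_of_nonneg (Int.emod_nonneg x hp0)
  rw [e1]
  exact (Int.emod_add_mul_ediv x p).symm

private lemma rs_lt (p : ℕ) (hp : p.Prime) (x : ℤ) : rs p x < p := by
  have hp0 : (0 : ℤ) < (p : ℤ) := by exact_mod_cast hp.pos
  have e1 : ((rs p x : ℕ) : ℤ) = x % p := Int.toNat_of_nonneg (Int.emod_nonneg x hp0.ne')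
  have e2 := Int.emod_lt_of_pos x hp0
  have : ((rs p x : ℕ) : ℤ) < (p : ℤ) := by rw [e1]; exact e2
  exact_mod_cast this

private lemma reidx (p : ℕ) (hp : p.Prime) (u v : ℤ) (hu : ¬ (p : ℤ) ∣ u)
    (F : ℕ → ℤ → ℤ → ℂ) :
    ∑ i ∈ Finset.range p, F (rs p (u * (i : ℤ) + v)) = ∑ i ∈ Finset.range p, F i := by
  have hinj : Set.InjOn (fun i : ℕ => rs p (u * (i : ℤ) + v)) (Finset.range p : Set ℕ) := by
    intro a ha b hb hab
    have ha' : a < p := by simpa using ha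
    have hb' : b < p := by simpa using hb
    have hab' : rs p (u * (a : ℤ) + v) = rs p (u * (b : ℤ) + v) := hab
    obtain ⟨s, hs⟩ := rs_spec p hp (u * (a : ℤ) + v)
    obtain ⟨t, ht⟩ := rs_spec p hp (u * (b : ℤ) + v)
    rw [hab'] at hs
    have h3 : (p : ℤ) ∣ u * ((a : ℤ) - b) := ⟨s - t, by linear_combination hs - ht⟩
    have hpp : Prime (p : ℤ) := Nat.prime_iff_prime_int.1 hp
    rcases hpp.dvd_or_dvd h3 with h | h
    · exact absurd h hu
    · have h5 : (a : ℤ) ≡ b [ZMOD p] := ((Int.modEq_iff_dvd).2 h).symm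
      have h6 : a ≡ b [MOD p] := (Int.natCast_modEq_iff).1 h5
      exact Nat.ModEq.eq_of_lt_of_lt h6 ha' hb'
  have himg : (Finset.range p).image (fun i : ℕ => rs p (u * (i : ℤ) + v)) = Finset.range p := by
    refine Finset.eq_of_subset_of_card_le ?_ ?_
    · intro x hx
      obtain ⟨y, _, rfl⟩ := Finset.mem_image.1 hx
      exact Finset.mem_range.2 (rs_lt p hp _)
    · rw [Finset.card_image_of_injOn hinj]
  calc ∑ i ∈ Finset.range p, F (rs p (u * (i : ℤ) + v))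
      = ∑ j ∈ (Finset.range p).image (fun i : ℕ => rs p (u * (i : ℤ) + v)), F j :=
        (Finset.sum_image hinj).symm
    _ = ∑ i ∈ Finset.range p, F i := by rw [himg]


private lemma half (p : ℕ) (hp : p.Prime) (h2 : p ≠ 2) : ∃ h : ℤ, 2 * h = p + 1 := by
  obtain ⟨k, hk⟩ := hp.odd_of_ne_two h2
  exact ⟨k + 1, by rw [hk]; push_cast; ring⟩

private lemma oddp (p : ℕ) (hp : p.Prime) (h2 : p ≠ 2) (n : ℕ) : ¬ (2 : ℤ) ∣ (p : ℤ) ^ n := by
  intro h
  have h3 : (2 : ℤ) ∣ (p : ℤ) := Int.prime_two.dvd_of_dvd_pow h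
  have h4 : 2 ∣ p := by exact_mod_cast h3
  exact h2 ((Nat.prime_dvd_prime_iff_eq Nat.prime_two hp).1 h4).symm

/-- Part (b). -/
private lemma partB (p : ℕ) (hp : p.Prime) (h2p : p ≠ 2) (n : ℕ) (G : ℤ → ℤ → ℂ) (hn : 2 ≤ n)
    (hG : SymE p 0 n G) : SymE p 0 (n - 1) (sSE p n G) := by
  obtain ⟨m, rfl⟩ : ∃ m, n = m + 2 := ⟨n - 2, by omega⟩
  obtain ⟨h, hh⟩ := half p hp h2p
  have e1 : m + 2 - 1 = m + 1 := by omega
  refine ⟨homog_sum _ _ (fun i _ => hG.1.act (by norm_num)), ?_⟩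
  intro a b c d hdet _ hc
  rw [e1] at hc
  obtain ⟨c0, hc0⟩ := hc
  unfold sSE
  rw [e1, act_sum]
  have hda : ∃ k : ℤ, a * d = 1 + p * k := ⟨b * (p : ℤ) ^ m * c0, by
    rw [pow_succ] at hc0; linear_combination hdet + b * hc0⟩
  obtain ⟨k, hk⟩ := hda
  have hpp : Prime (p : ℤ) := Nat.prime_iff_prime_int.1 hp
  have hpa : ¬ (p : ℤ) ∣ a := by
    rintro ⟨r, hr⟩
    apply hpp.not_unit
    exact isUnit_of_dvd_one ⟨r * d - k, by rw [hr] at hk; linear_combination -hk⟩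
  have hu : ¬ (p : ℤ) ∣ a * a := fun h => by
    rcases hpp.dvd_or_dvd h with h | h <;> exact hpa h
  have key : ∀ i ∈ Finset.range p,
      EqC (act a b c d (act 1 0 (2 * (i : ℤ) * (p : ℤ) ^ (m + 1)) 1 G))
      (eps a b c d • act 1 0 (2 * ((rs p (a * a * (i : ℤ) + a * c0 * h) : ℕ) : ℤ) *
        (p : ℤ) ^ (m + 1)) 1 G) := by
    intro i _
    obtain ⟨t, ht⟩ := rs_spec p hp (a * a * (i : ℤ) + a * c0 * h)
    set j : ℤ := ((rs p (a * a * (i : ℤ) + a * c0 * h) : ℕ) : ℤ) with hj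
    set M : ℤ := (p : ℤ) ^ (m + 1) with hM
    have hMp : M = p * (p : ℤ) ^ m := by rw [hM, pow_succ]; ring
    have hg : EqC (act (a - 2 * j * M * b) b
        (2 * i * M * a + c - 2 * j * M * (2 * i * M * b + d)) (2 * i * M * b + d) G)
        (eps a b c d • G) := by
      have e0 : eps (a - 2 * j * M * b) b
          (2 * i * M * a + c - 2 * j * M * (2 * i * M * b + d)) (2 * i * M * b + d) =
          eps a b c d := by
        refine eps_mod ⟨-(j * M * b), by ring⟩ ⟨0, by ring⟩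
          ⟨i * M * a - j * M * (2 * i * M * b + d), by ring⟩ ⟨i * M * b, by ring⟩
      rw [← e0]
      refine hG.2 _ _ _ _ ?_ (by simp) ?_
      · linear_combination hdet
      · have e2 : 2 * (i : ℤ) * a + c0 - 2 * j * d =
            p * (2 * t * d - k * (2 * i * a + c0) - a * c0 * d) := by
          linear_combination 2 * d * ht - (2 * (i : ℤ) * a + c0) * hk - a * c0 * d * hh
        refine ⟨2 * t * d - k * (2 * i * a + c0) - a * c0 * d - 4 * i * j * (p : ℤ) ^ m * b, ?_⟩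
        have e3 : (p : ℤ) ^ (m + 2) = M * p := by rw [hM]; ring
        rw [e3, hc0]
        have : 2 * (i : ℤ) * M * a + M * c0 - 2 * j * M * (2 * i * M * b + d) =
            M * (2 * (i : ℤ) * a + c0 - 2 * j * d) - 4 * i * j * M * M * b := by ring
        rw [this, e2]
        nth_rewrite 3 [hMp]
        ring
    have h2 := hg.act (a := 1) (b := 0) (c := 2 * j * M) (d := 1) (by norm_num)
    rw [act_act] at h2 ⊢
    have e5 : act 1 0 (2 * j * M) 1 (eps a b c d • G) =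
        eps a b c d • act 1 0 (2 * j * M) 1 G := rfl
    rw [e5] at h2
    convert h2 using 2 <;> ring
  refine (eqc_sum _ _ _ key).trans ?_
  rw [← Finset.smul_sum, reidx p hp (a * a) (a * c0 * h) hu
    (fun j => act 1 0 (2 * (j : ℤ) * (p : ℤ) ^ (m + 1)) 1 G)]
  exact EqC.refl _

/-- Part (a). -/
private lemma partA (p : ℕ) (hp : p.Prime) (n : ℕ) (G : ℤ → ℤ → ℂ) (hn : 2 ≤ n)
    (hG : SymE p 0 n G) : SymE p 0 n (tSE p G) := by
  obtain ⟨m, rfl⟩ : ∃ m, n = m + 2 := ⟨n - 2, by omega⟩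
  have hp0 : (p : ℤ) ≠ 0 := by exact_mod_cast hp.ne_zero
  have hdp : ∀ i : ℕ, (p : ℤ) * p - 2 * (i : ℤ) * 0 ≠ 0 := by
    intro i
    rw [mul_zero, sub_zero]
    exact mul_ne_zero hp0 hp0
  refine ⟨homog_sum _ _ (fun i _ => hG.1.act (hdp i)), ?_⟩
  intro a b c d hdet _ hc
  obtain ⟨c1, hc1⟩ := hc
  have hce : c = p * p * ((p : ℤ) ^ m * c1) := by rw [hc1]; ring
  set e : ℤ := (p : ℤ) ^ m * c1 with he
  unfold tSE
  rw [act_sum]
  have hpp : Prime (p : ℤ) := Nat.prime_iff_prime_int.1 hp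
  have hpd : ¬ (p : ℤ) ∣ d := by
    rintro ⟨r, hr⟩
    apply hpp.not_unit
    refine isUnit_of_dvd_one ⟨a * r - b * p * e, ?_⟩
    rw [hr, hce] at hdet
    linear_combination -hdet
  have hu : ¬ (p : ℤ) ∣ d * d := fun h => by
    rcases hpp.dvd_or_dvd h with h | h <;> exact hpd h
  have key : ∀ i ∈ Finset.range p, EqC (act a b c d (act p (2 * (i : ℤ)) 0 p G))
      (eps a b c d • act p (2 * ((rs p (d * d * (i : ℤ) + 0) : ℕ) : ℤ)) 0 p G) := by
    intro i _
    obtain ⟨t, ht⟩ := rs_spec p hp (d * d * (i : ℤ) + 0)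
    set j : ℤ := ((rs p (d * d * (i : ℤ) + 0) : ℕ) : ℤ) with hj
    -- `i d - j a = p s`
    have hs : (i : ℤ) * d - j * a = p * (t * a - i * d * (b * p * e)) := by
      have h1 : a * d = 1 + b * (p * p * e) := by rw [← hce]; linear_combination hdet
      linear_combination a * ht - (i : ℤ) * d * h1
    set s : ℤ := t * a - i * d * (b * p * e) with hsd
    have hg : EqC (act (a + 2 * i * p * e) (b + 2 * s - 4 * i * j * e) (p * p * e)
        (d - 2 * j * p * e) G) (eps a b c d • G) := by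
      have e0 : eps (a + 2 * i * p * e) (b + 2 * s - 4 * i * j * e) (p * p * e)
          (d - 2 * j * p * e) = eps a b c d := by
        refine eps_mod ⟨i * p * e, by ring⟩ ⟨s - 2 * i * j * e, by ring⟩
          ⟨0, by rw [hce]; ring⟩ ⟨-(j * p * e), by ring⟩
      rw [← e0]
      refine hG.2 _ _ _ _ ?_ (by simp) ?_
      · rw [hce] at hdet
        linear_combination hdet + 2 * p * e * hs
      · refine ⟨c1, ?_⟩
        rw [he]; ring
    have h2 := hg.act (a := p) (b := 2 * j) (c := 0) (d := p) (by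
      rw [mul_zero, sub_zero]; exact mul_ne_zero hp0 hp0)
    rw [act_act] at h2 ⊢
    have e5 : act p (2 * j) 0 p (eps a b c d • G) = eps a b c d • act p (2 * j) 0 p G := rfl
    rw [e5] at h2
    convert h2 using 2
    · rw [hce]; ring
    · linear_combination 2 * hs
    · rw [hce]; ring
    · ring
  refine (eqc_sum _ _ _ key).trans ?_
  rw [← Finset.smul_sum, reidx p hp (d * d) 0 hu (fun j => act p (2 * (j : ℤ)) 0 p G)]
  exact EqC.refl _

/-- Part (d). -/
private lemma partD (p : ℕ) (hp : p.Prime) (h2p : p ≠ 2) (n : ℕ) (G : ℤ → ℤ → ℂ)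
    (hG : SymE p 0 n G) : SymE p 0 n (act 0 (-1) ((p : ℤ) ^ n) 0 G) := by
  refine SymE.act hG (by simpa using oddp p hp h2p n) ?_
  intro a b c d hdet _ hc
  obtain ⟨c0, hc0⟩ := hc
  refine ⟨d, -c0, -((p : ℤ) ^ n * b), a, ?_, by simp, ⟨-b, by ring⟩, ?_, ?_, ?_, ?_⟩
  · rw [hc0] at hdet; linear_combination hdet
  · rw [hc0]; ring
  · ring
  · ring
  · ring

/-- Part (e). -/
private lemma partE (p : ℕ) (n : ℕ) (G : ℤ → ℤ → ℂ)
    (hG : SymE p 0 n G) : SymE p 0 n (act (-1) 0 0 1 G) := by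
  refine SymE.act hG (by norm_num) ?_
  intro a b c d hdet _ hc
  obtain ⟨c0, hc0⟩ := hc
  refine ⟨a, -b, -c, d, ?_, by simp, ⟨-c0, by rw [hc0]; ring⟩, ?_, ?_, ?_, ?_⟩
  · linear_combination hdet
  · ring
  · ring
  · ring
  · ring

/-- Part (c). -/
private lemma partC (p : ℕ) (hp : p.Prime) (h2p : p ≠ 2) (n : ℕ) (G : ℤ → ℤ → ℂ) (hn : 2 ≤ n)
    (hG : SymE p 0 n G) : SymE p 0 (n - 1) (act 0 (-1) ((p : ℤ) ^ n) 0 (tSE p G)) := by
  have hp0 : (p : ℤ) ≠ 0 := by exact_mod_cast hp.ne_zero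
  have hN : (p : ℤ) ^ n ≠ 0 := pow_ne_zero _ hp0
  have hW := partD p hp h2p n G hG
  have hS := partB p hp h2p n _ hn hW
  have hMN : (p : ℤ) ^ n = p * (p : ℤ) ^ (n - 1) := by
    obtain ⟨m, rfl⟩ : ∃ m, n = m + 1 := ⟨n - 1, by omega⟩
    rw [Nat.add_sub_cancel, pow_succ]; ring
  have hdp : ∀ i : ℕ, (p : ℤ) * p - 2 * (i : ℤ) * 0 ≠ 0 := by
    intro i
    rw [mul_zero, sub_zero]
    exact mul_ne_zero hp0 hp0
  have hhom : Homog (act 0 (-1) ((p : ℤ) ^ n) 0 (tSE p G)) := by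
    refine Homog.act ?_ (by simpa using hN)
    exact homog_sum _ _ (fun i _ => hG.1.act (hdp i))
  have hpp : Prime (p : ℤ) := Nat.prime_iff_prime_int.1 hp
  have hu : ¬ (p : ℤ) ∣ (-1 : ℤ) := fun h => hpp.not_unit (isUnit_of_dvd_one ((dvd_neg).1 h))
  have hXY : EqC (act 0 (-1) ((p : ℤ) ^ n) 0 (tSE p G))
      (sSE p n (act 0 (-1) ((p : ℤ) ^ n) 0 G)) := by
    unfold tSE sSE
    rw [act_sum]
    have key : ∀ i ∈ Finset.range p, EqC (act 0 (-1) ((p : ℤ) ^ n) 0 (act p (2 * (i : ℤ)) 0 p G))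
        (act 1 0 (2 * ((rs p ((-1) * (i : ℤ) + 0) : ℕ) : ℤ) * (p : ℤ) ^ (n - 1)) 1
          (act 0 (-1) ((p : ℤ) ^ n) 0 G)) := by
      intro i _
      obtain ⟨t, ht⟩ := rs_spec p hp ((-1) * (i : ℤ) + 0)
      set j : ℤ := ((rs p ((-1) * (i : ℤ) + 0) : ℕ) : ℤ) with hj
      set M : ℤ := (p : ℤ) ^ (n - 1) with hM
      -- scaling
      have h1 : EqC (act (p * (2 * i * M)) (p * (-1)) (p * ((p : ℤ) ^ n)) (p * 0) G)
          (act (2 * i * M) (-1) ((p : ℤ) ^ n) 0 G) :=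
        hG.1.scale (p : ℤ) hp0 (by simpa using hN)
      have h2 : act 0 (-1) ((p : ℤ) ^ n) 0 (act p (2 * (i : ℤ)) 0 p G) =
          act (p * (2 * i * M)) (p * (-1)) (p * ((p : ℤ) ^ n)) (p * 0) G := by
        rw [act_act]
        congr 1
        · rw [hMN]; ring
        · ring
        · ring
      have h3 : act (2 * i * M) (-1) ((p : ℤ) ^ n) 0 G =
          act 1 0 (-(2 * i * M)) 1 (act 0 (-1) ((p : ℤ) ^ n) 0 G) := by
        rw [act_act]
        congr 1 <;> ring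
      have h4 : EqC (act 1 0 (-(2 * i * M) - 2 * j * M) 1 (act 0 (-1) ((p : ℤ) ^ n) 0 G))
          (act 0 (-1) ((p : ℤ) ^ n) 0 G) := by
        have h6 := hW.2 1 0 (-(2 * i * M) - 2 * j * M) 1 (by ring) (by simp) ⟨2 * t, by
          rw [hMN]
          linear_combination 2 * M * ht⟩
        rw [eps_id (by norm_num) ⟨-(i * M) - j * M, by ring⟩, one_smul] at h6
        exact h6
      have h5 := h4.act (a := 1) (b := 0) (c := 2 * j * M) (d := 1) (by norm_num)
      rw [act_act] at h5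
      rw [h2]
      refine h1.trans ?_
      rw [h3]
      convert h5 using 2
      all_goals ring
    refine (eqc_sum _ _ _ key).trans ?_
    rw [reidx p hp (-1) 0 hu
      (fun j => act 1 0 (2 * (j : ℤ) * (p : ℤ) ^ (n - 1)) 1 (act 0 (-1) ((p : ℤ) ^ n) 0 G))]
    exact EqC.refl _
  refine ⟨hhom, ?_⟩
  intro a b c d hdet hb hc
  have h1 := hXY.act (a := a) (b := b) (c := c) (d := d) (by rw [hdet]; exact one_ne_zero)
  exact (h1.trans (hS.2 a b c d hdet hb hc)).trans (hXY.symm.smul (eps a b c d))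

theorem hAvg : SEAvg := by
  intro p hp h2p n G hn hG
  exact ⟨partA p hp n G hn hG, partB p hp h2p n G hn hG, partC p hp h2p n G hn hG,
    partD p hp h2p n G hG, partE p n G hG⟩

end Pool.Agent.Helper42.TLE
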